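import Pool.Agent.K3h35.GS.Arb
import Pool.Agent.K3h35.GS.Bph

/-!
# Finite-energy gravitating Abelian Higgs strings: arbitrary string number and positions

Problem MP_e9f444_mp, Q1.  For all `ε, G > 0`, all distinct points and all multiplicities, without
any bound relating the string number `N` to `ε` and `G`, the coupled Einstein and Abelian Higgs
equations have a finite-energy solution on the plane whose Higgs field vanishes exactly at the
prescribed points with the prescribed multiplicities.

The definitions of the equations are those of `ManyStrings.lean` in this folder.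

Idea of the proof: the Einstein equation determines the conformal factor `η` of the metric only up
to a harmonic function.  We take `η = c + 4πG (ε² v - |φ|²) + x₁`, where `|φ|² = ∏ |x - p_k|^{2 n_k} e^v`.
The remaining scalar equation for `v` has a bounded supersolution (the minimum of a constant and of
the vacuum `|φ|² = ε²`) and a bounded subsolution (the exponential weight makes a logarithmic bump
centred far to the right admissible).  The weight is unbounded, so the solution is obtained as a
monotone limit of solutions with truncated weights.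
-/

set_option autoImplicit false

namespace Pool.Agent.Results.MP_e9f444_mp.ArbitraryStrings

open MeasureTheory Filter Topology Set
open Pool.Agent.Results.MP_e9f444_mp.ManyStrings Pool.Agent.H172R3.GS Pool.Agent.H314.Dir
open Pool.Agent.K3h35.GS

/-- **Main theorem.**  For all `ε, G > 0`, all distinct points `p_1, …, p_K` of the plane and all
multiplicities `n_k ≥ 1`, the coupled Einstein and Abelian Higgs equations have a smooth solution
of finite energy whose Higgs field vanishes exactly at the `p_k`, with multiplicities `n_k`.  There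
is no condition relating the total string number `N = ∑ n_k` to `ε` and `G`. -/
theorem result (ε G : ℝ) (hε : 0 < ε) (hG : 0 < G) (K : ℕ) (p : Fin K → Plane)
    (hp : Function.Injective p) (n : Fin K → ℕ) (hn : ∀ k, 1 ≤ n k) :
    ∃ (η : Plane → ℝ) (φ : Plane → ℂ) (A : Fin 2 → Plane → ℝ),
      IsSolution ε G η φ A ∧ FiniteEnergy ε η φ A ∧ (∀ x, φ x = 0 ↔ ∃ k, x = p k) ∧
        ∀ k, HasZero φ (p k) (n k) := by
  set κ : ℝ := 4 * Real.pi * G with hκ
  set e : ℝ := ε ^ 2 with he
  set a : ℝ := κ * e with ha
  have hpi := Real.pi_pos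
  have hκ0 : 0 < κ := by positivity
  have he0 : 0 < e := by positivity
  have ha0 : 0 < a := by positivity
  obtain ⟨g, hg, t, B, ht, htB, hteq⟩ := exists_arb p n hn ha0 hκ0 he0
  have ht2 : ContDiff ℝ 2 t := by exact_mod_cast contDiff_infty.1 ht 2
  set v : Plane → ℝ := fun x => t x - GG 0 p n x with hv
  have hvs : Smooth v := ContDiff.sub ht (contDiff_GG 0 p n)
  set φ : Plane → ℂ := higgsField p n v with hφ
  have hφn : ∀ x, ‖φ x‖ ^ 2 = PP p n x * Real.exp (v x) := norm_higgs p n v
  set H : Plane → ℝ := fun x => x 0 with hH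
  have hHs : Smooth H := smooth_x0
  have hHl : ∀ x, ∑ j, pd j (pd j H) x = 0 := by
    intro x
    have h1 : ∀ j : Fin 2, pd j H = fun _ => (EuclideanSpace.single j (1 : ℝ) : Plane) 0 := by
      intro j
      funext y
      unfold pd
      have h2 : HasFDerivAt H (EuclideanSpace.proj (𝕜 := ℝ) (0 : Fin 2) : Plane →L[ℝ] ℝ) y :=
        (EuclideanSpace.proj (𝕜 := ℝ) (0 : Fin 2) : Plane →L[ℝ] ℝ).hasFDerivAt
      rw [h2.fderiv]
      rfl
    refine Finset.sum_eq_zero fun j _ => ?_
    rw [h1]
    unfold pd
    simp
  set η : Plane → ℝ := fun x => Real.log g + κ * (e * v x - ‖φ x‖ ^ 2) + H x with hη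
  have hφs : Smooth φ := smooth_higgs p n hvs
  have hηs : Smooth η := ContDiff.add (ContDiff.add contDiff_const (ContDiff.mul contDiff_const
    (ContDiff.sub (ContDiff.mul contDiff_const hvs) (ContDiff.norm_sq ℝ hφs)))) hHs
  have hexp : ∀ x, Real.exp (η x) =
      Real.exp (x 0) * (g * Real.exp (a * v x - κ * (PP p n x * Real.exp (v x)))) := by
    intro x
    simp only [hη, hH]
    rw [Real.exp_add, Real.exp_add, Real.exp_log hg, hφn, mul_comm]
    congr 3
    rw [ha]; ring
  have hb4 : ∀ x, ∑ j, pd j (pd j v) x = Real.exp (η x) * (‖φ x‖ ^ 2 - ε ^ 2) := by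
    intro x
    rw [← lap_eq_pd hvs, hexp, hφn]
    simp only [hv]
    rw [lap_sub ht2.contDiffAt (contDiff_GG 0 p n).contDiffAt, hteq, lap_GG, bt_eq]
    have h1 : PP p n x * Real.exp (t x - GG 0 p n x) = EE 0 p n x * Real.exp (t x) := by
      unfold EE
      rw [sub_eq_add_neg, Real.exp_add]; ring
    rw [h1]
    have h2 : a * (t x - GG 0 p n x) - κ * (EE 0 p n x * Real.exp (t x)) =
        -(a * GG 0 p n x) + (a * t x - κ * (EE 0 p n x * Real.exp (t x))) := by ring
    rw [h2, Real.exp_add]
    ring
  have hbps : BPH ε G η v φ (gaugeField v) := by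
    refine ⟨hηs, hvs, hφs, smooth_gauge hvs, fun x => higgs_bps p n hvs x, fun x => ?_,
      ⟨Real.log g, H, hHs, hHl, fun x => rfl⟩, hb4⟩
    rw [gauge_field hvs, hb4]
    ring
  have hint : Integrable (fun x => energyDensity ε η φ (gaugeField v) x * Real.exp (η x)) := by
    have hW : Smooth (fun y => ‖φ y‖ ^ 2) := ContDiff.norm_sq ℝ hφs
    have hdiv : ∀ x, energyDensity ε η φ (gaugeField v) x * Real.exp (η x) =
        1 / 4 * lap (fun y => ‖φ y‖ ^ 2) x - e / 4 * lap v x := by
      intro x
      rw [hbps.energy_div x, lap_eq_pd hW, lap_eq_pd hvs]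
    have hW2 : ContDiff ℝ 2 (fun y => ‖φ y‖ ^ 2) := by exact_mod_cast contDiff_infty.1 hW 2
    have hv2 : ContDiff ℝ 2 v := by exact_mod_cast contDiff_infty.1 hvs 2
    refine integrable_energy (j := 0) (p := p) (n := n) he0 ht2 htB _ ?_ ?_ ?_
    · simp only [hdiv]
      exact (continuous_const.mul (continuous_lap hW2)).sub
        (continuous_const.mul (continuous_lap hv2))
    · intro x
      exact mul_nonneg (hbps.energy_nonneg x) (Real.exp_pos _).le
    · intro x
      rw [hdiv x]
      have : (fun y => ‖φ y‖ ^ 2) = fun y => PP p n y * Real.exp (t y - GG 0 p n y) :=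
        funext hφn
      rw [this]
  refine ⟨η, φ, gaugeField v, hbps.isSolution, ⟨hint, ?_⟩, higgs_eq_zero p n hn v,
    higgs_zero p hp n hvs⟩
  have e1 : (fun x => gaussCurvature η x * Real.exp (η x)) = fun x => (8 * Real.pi * G) *
      (energyDensity ε η φ (gaugeField v) x * Real.exp (η x)) := by
    funext x
    rw [hbps.isSolution.einstein x]
    ring
  rw [e1]
  exact hint.const_mul _

end Pool.Agent.Results.MP_e9f444_mp.ArbitraryStrings
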