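import Pool.Agent.K3h35.GS.Phys2
import Pool.Agent.K3h9.GAH.Rad3
import Pool.Agent.K3h66.GAH.K2
import Pool.Agent.K3h22.CylMax
import Pool.Agent.K3h22.LogPot
import Pool.Agent.K3h28.GAH.K4
import Pool.Agent.K3h28.GAH.N
import Pool.Agent.K3h3.GAH.K1
import Pool.Agent.K3h3.GAH.T1

/-!
# Polygonal gravitating Abelian Higgs strings in the standard metric, for all `N ≥ 2`

Problem MP_e9f444_mp, Q1.  The Einstein equation determines the conformal factor `η` of the metric
only up to a harmonic function, and the literature takes this function constant, that is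

  `η = c + 4πG (ε² v - |φ|²)`,  where  `|φ|² = ∏ |x - p_k|² e^v`.

For all `ε, G > 0` and every `N ≥ 2`, without any bound relating `N` to `ε` and `G`, there is a
finite-energy `N`-string solution of this standard form, whose Higgs field vanishes exactly at the
vertices of a regular `N`-gon of arbitrary size.  (The file `ArbitraryStrings.lean` has arbitrary
positions and `N ≥ 1`, but with a non-constant harmonic function in the metric.)

The definitions of the equations are those of `ManyStrings.lean` in this folder.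

Idea of the proof: for small `δ` the solution with zeros at the roots of `1 - δ z^N` is a
perturbation, inside the `N`-fold symmetric functions, of a radial solution without zeros whose
Higgs field is close to the vacuum in a large disc and decays fast outside of it.  The linearisation
is injective on `N`-fold symmetric functions when `N ≥ 2`.
-/

set_option autoImplicit false

namespace Pool.Agent.Results.MP_e9f444_mp.PolygonStrings

open Pool.Agent.Results.MP_e9f444_mp.ManyStrings

/-- The vertices `r (cos (2πk/N), sin (2πk/N))`, `0 ≤ k < N`, of the regular `N`-gon of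
circumradius `r` centred at the origin. -/
noncomputable def vertex (N : ℕ) (r : ℝ) (k : Fin N) : Plane :=
  !₂[r * Real.cos (2 * Real.pi * k / N), r * Real.sin (2 * Real.pi * k / N)]

/-- **Main theorem.**  For all `ε, G > 0`, every `N ≥ 2` and every `r > 0` the coupled Einstein and
Abelian Higgs equations on the plane have a smooth solution of finite energy whose Higgs field
vanishes exactly at the `N` distinct vertices `p_k` of the regular `N`-gon of circumradius `r`, each
zero being simple, and whose metric has the standard form `η = c + 4πG (ε² v - |φ|²)` with a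
constant `c`, where `|φ|² = ∏ |x - p_k|² e^v` with a smooth `v`. -/
theorem result (ε G : ℝ) (hε : 0 < ε) (hG : 0 < G) (N : ℕ) (hN : 2 ≤ N) (r : ℝ) (hr : 0 < r) :
    Function.Injective (vertex N r) ∧
    ∃ (η : Plane → ℝ) (φ : Plane → ℂ) (A : Fin 2 → Plane → ℝ),
      IsSolution ε G η φ A ∧ FiniteEnergy ε η φ A ∧ (∀ x, φ x = 0 ↔ ∃ k, x = vertex N r k) ∧
        (∀ k, HasZero φ (vertex N r k) 1) ∧
        ∃ (c : ℝ) (v : Plane → ℝ), Smooth v ∧
          (∀ x, ‖φ x‖ ^ 2 = (∏ k, ‖x - vertex N r k‖ ^ 2) * Real.exp (v x)) ∧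
          ∀ x, η x = c + 4 * Real.pi * G * (ε ^ 2 * v x - ‖φ x‖ ^ 2) := by
  refine ⟨Pool.Agent.K3h35.GS.vert_injective hN hr, ?_⟩
  have ha : 0 < 4 * Real.pi * ε ^ 2 * G := by have := Real.pi_pos; positivity
  obtain ⟨δ, u, B, hδ, hu, hlap, hB, hint⟩ := Pool.Agent.K3h35.GS.main_u
    Pool.Agent.K3h9.GAH.t_A Pool.Agent.K3h3.GAH.t_K1 Pool.Agent.K3h66.GAH.t_K2
    Pool.Agent.K3h22.GS.t_K3 Pool.Agent.K3h28.GAH.t_K4 Pool.Agent.K3h3.GAH.t_T1
    Pool.Agent.K3h3.GAH.t_T2 Pool.Agent.K3h22.GS.t_T3 Pool.Agent.K3h28.GAH.t_N ha hN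
  obtain ⟨δ', lam, u', hδ', hlam, hrd, hu', hlap', hB', hint'⟩ :=
    Pool.Agent.K3h35.GS.scale_u hN hδ hr hu hlap hB hint
  exact Pool.Agent.K3h35.GS.strings_of_u' hε hG hN hlam hδ' hr hrd hu' hlap' hB' hint'

end Pool.Agent.Results.MP_e9f444_mp.PolygonStrings
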