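import Pool.Agent.Results.MP_e9f444_mp.NoCoincidentStrings
import Pool.Agent.Results.MP_e9f444_mp.PolygonStrings

/-!
# Q1 in the standard metric: finite-energy strings beyond the symmetric bound exist iff `N ≥ 2`

Problem MP_e9f444_mp, Q1.  The Einstein equation determines the conformal factor `η` only up to a
harmonic function, and the literature takes this function constant:

  `η = c + 4πG (ε² v - |φ|²)`,  where  `|φ|² = ∏ |x - p_k|^(2 n_k) e^v`.

In this standard metric the question of Q1 has the following complete answer: for all `ε, G > 0` and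
every positive integer `N ≥ 1 / (2πε²G)`, finite-energy `N`-string solutions exist if and only if
`N ≥ 2`.  It puts together `PolygonStrings.lean` (existence) and `NoCoincidentStrings.lean`
(non-existence for a single string).  The definitions of the equations are those of
`ManyStrings.lean` in this folder.
-/

set_option autoImplicit false

namespace Pool.Agent.Results.MP_e9f444_mp.ExactStringNumbers

open Pool.Agent.Results.MP_e9f444_mp.ManyStrings

/-- There is a smooth finite-energy solution whose Higgs field vanishes exactly at some distinct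
points `p_k`, with multiplicities `n_k ≥ 1` of sum `N`, and whose metric has the standard form. -/
def HasStandardStrings (ε G : ℝ) (N : ℕ) : Prop :=
  ∃ (K : ℕ) (p : Fin K → Plane) (n : Fin K → ℕ),
    Function.Injective p ∧ (∀ k, 1 ≤ n k) ∧ ∑ k, n k = N ∧
    ∃ (η : Plane → ℝ) (φ : Plane → ℂ) (A : Fin 2 → Plane → ℝ),
      IsSolution ε G η φ A ∧ FiniteEnergy ε η φ A ∧ (∀ x, φ x = 0 ↔ ∃ k, x = p k) ∧
        (∀ k, HasZero φ (p k) (n k)) ∧
        ∃ (c : ℝ) (v : Plane → ℝ), Smooth v ∧
          (∀ x, ‖φ x‖ ^ 2 = (∏ k, ‖x - p k‖ ^ (2 * n k)) * Real.exp (v x)) ∧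
          ∀ x, η x = c + 4 * Real.pi * G * (ε ^ 2 * v x - ‖φ x‖ ^ 2)

/-- **Main theorem.**  For all `ε, G > 0` and every positive integer `N` with `N ≥ 1 / (2πε²G)`,
there is a finite-energy `N`-string solution in the standard metric if and only if `N ≥ 2`. -/
theorem result (ε G : ℝ) (hε : 0 < ε) (hG : 0 < G) (N : ℕ) (hN : 1 ≤ N)
    (hbig : 1 / (2 * Real.pi * ε ^ 2 * G) ≤ N) : HasStandardStrings ε G N ↔ 2 ≤ N := by
  constructor
  · rintro ⟨K, p, n, hp, hn, hsum, η, φ, A, hsol, hfin, hzero, hz, c, v, hv, hW, hη⟩
    by_contra hcon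
    have hN1 : N = 1 := by omega
    subst hN1
    have hK : K ≤ 1 := by
      calc K = ∑ _k : Fin K, 1 := by simp
        _ ≤ ∑ k, n k := Finset.sum_le_sum fun k _ => hn k
        _ = 1 := hsum
    have hK0 : K ≠ 0 := by
      rintro rfl
      simp at hsum
    have hK1 : K = 1 := by omega
    subst hK1
    have hn0 : n 0 = 1 := by simpa using hsum
    refine NoCoincidentStrings.result ε G hε hG 1 le_rfl hbig ⟨p 0, η, φ, A, hsol, hfin,
      fun x => ?_, ?_, c, v, hv, fun x => ?_, hη⟩
    · rw [hzero]
      constructor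
      · rintro ⟨k, hk⟩
        rw [hk, Subsingleton.elim k 0]
      · intro h
        exact ⟨0, h⟩
    · have := hz 0
      rwa [hn0] at this
    · rw [hW]
      simp [hn0]
  · intro h2
    obtain ⟨hinj, η, φ, A, hsol, hfin, hzero, hz, c, v, hv, hW, hη⟩ :=
      PolygonStrings.result ε G hε hG N h2 1 one_pos
    refine ⟨N, PolygonStrings.vertex N 1, fun _ => 1, hinj, fun _ => le_rfl, by simp, η, φ, A,
      hsol, hfin, hzero, hz, c, v, hv, fun x => ?_, hη⟩
    rw [hW]
    simp only [mul_one]

end Pool.Agent.Results.MP_e9f444_mp.ExactStringNumbers
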