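import Pool.Agent.K3h35.NX.Red
import Pool.Agent.K3h66.NX.X2
import Pool.Agent.K3h66.NX.X6
import Pool.Agent.K3h22.NX.X3
import Pool.Agent.K3h25.NX.X4
import Pool.Agent.K3h85.NX.X5
import Pool.Agent.K3h8.NX.X7

/-!
# No finite-energy strings superimposed at one point beyond the symmetric bound

Problem MP_e9f444_mp, Q1.  In the standard metric

  `η = c + 4πG (ε² v - |φ|²)`,  where  `|φ|² = |x - p|^(2N) e^v`,

there is no finite-energy solution of the Einstein and Abelian Higgs equations whose `N` strings all
sit at one point `p`, as soon as `N ≥ 1 / (2πε²G)`.  No symmetry of the solution is assumed (for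
radially symmetric solutions this was known).

The definitions of the equations are those of `ManyStrings.lean` in this folder.

Idea of the proof: unique continuation gives the first order equations (the zero of `φ` excludes the
opposite sign), hence `Δv = e^η (|φ|² - ε²)`.  Finite total curvature and Liouville's theorem show
that `v` is the logarithmic potential of `f = e^η (|φ|² - ε²)` plus a constant and that
`∫ f ≤ -4πN`; the dilation (Pohozaev) identity for `e^η` forces `-∫ f < 2/(ε²G) ≤ 4πN`.
-/

set_option autoImplicit false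

namespace Pool.Agent.Results.MP_e9f444_mp.NoCoincidentStrings

open Pool.Agent.Results.MP_e9f444_mp.ManyStrings

/-- **Main theorem.**  Let `ε, G > 0` and let `N` be a positive integer with `N ≥ 1 / (2πε²G)`.
There is no smooth finite-energy solution of the coupled Einstein and Abelian Higgs equations on the
plane whose Higgs field has a zero of multiplicity `N` at a point `p` and no other zero, and whose
metric has the standard form `η = c + 4πG (ε² v - |φ|²)` with a constant `c`, where
`|φ|² = |x - p|^(2N) e^v` with a smooth `v`. -/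
theorem result (ε G : ℝ) (hε : 0 < ε) (hG : 0 < G) (N : ℕ) (hN : 1 ≤ N)
    (hbig : 1 / (2 * Real.pi * ε ^ 2 * G) ≤ N) :
    ¬ ∃ (p : Plane) (η : Plane → ℝ) (φ : Plane → ℂ) (A : Fin 2 → Plane → ℝ),
      IsSolution ε G η φ A ∧ FiniteEnergy ε η φ A ∧ (∀ x, φ x = 0 ↔ x = p) ∧ HasZero φ p N ∧
        ∃ (c : ℝ) (v : Plane → ℝ), Smooth v ∧
          (∀ x, ‖φ x‖ ^ 2 = ‖x - p‖ ^ (2 * N) * Real.exp (v x)) ∧
          ∀ x, η x = c + 4 * Real.pi * G * (ε ^ 2 * v x - ‖φ x‖ ^ 2) := by
  rintro ⟨p, η, φ, A, hsol, hfin, hzero, hz, c, v, hv, hW, hη⟩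
  have h := Pool.Agent.K3h35.NX.red Pool.Agent.K3h66.NX.t_X2 Pool.Agent.K3h22.NX.t_X3
    Pool.Agent.K3h25.NX.t_X4 Pool.Agent.K3h85.NX.t_X5 Pool.Agent.K3h66.NX.t_X6
    Pool.Agent.K3h8.NX.X7.t_X7 hε hG hN hsol hfin hzero hz hv
    (fun x => by rw [hW, pow_mul]) hη
  have hpi := Real.pi_pos
  rw [div_le_iff₀ (by positivity)] at hbig
  linarith

end Pool.Agent.Results.MP_e9f444_mp.NoCoincidentStrings
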